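import Pool.Agent.Helper95.Lin.GoalsH

/-! # The cofactors of a Kähler metric are divergence free -/

open Complex Metric Set Filter Topology MeasureTheory
open scoped ContDiff ComplexConjugate ComplexOrder

namespace Pool.Agent.Helper10.Lin

open Pool.Agent.Helper95.Lin

/-- Derivative of a determinant, by rows. -/
theorem fderiv_det {n m : ℕ} {x : Cn n} (R : Cn n → Matrix (Fin m) (Fin m) ℂ)
    (hR : ∀ i j, DifferentiableAt ℝ (fun y => R y i j) x) (v : Cn n) :
    fderiv ℝ (fun y => (R y).det) x v =
      ∑ l, ((R x).updateRow l (fun i => fderiv ℝ (fun y => R y l i) x v)).det := by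
  have h1 : ∀ A : Matrix (Fin m) (Fin m) ℂ, A.det =
      ∑ σ : Equiv.Perm (Fin m), ((Equiv.Perm.sign σ : ℤ) : ℂ) * ∏ i, A i (σ i) := by
    intro A
    rw [← Matrix.det_transpose, Matrix.det_apply']
    rfl
  have h2 : ∀ σ : Equiv.Perm (Fin m), HasFDerivAt (fun y => ∏ i, R y i (σ i))
      (∑ l, (∏ i ∈ Finset.univ.erase l, R x i (σ i)) • fderiv ℝ (fun y => R y l (σ l)) x) x := by
    intro σ
    exact HasFDerivAt.finsetProd (fun i _ => (hR i (σ i)).hasFDerivAt)
  have h3 : HasFDerivAt (fun y => (R y).det)
      (∑ σ : Equiv.Perm (Fin m), ((Equiv.Perm.sign σ : ℤ) : ℂ) •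
        ∑ l, (∏ i ∈ Finset.univ.erase l, R x i (σ i)) • fderiv ℝ (fun y => R y l (σ l)) x) x := by
    have : (fun y => (R y).det) = fun y => ∑ σ : Equiv.Perm (Fin m),
        ((Equiv.Perm.sign σ : ℤ) : ℂ) * ∏ i, R y i (σ i) := by
      funext y
      exact h1 _
    rw [this]
    refine HasFDerivAt.fun_sum fun σ _ => ?_
    exact (h2 σ).const_mul _
  rw [h3.fderiv]
  simp only [h1]
  rw [Finset.sum_comm]
  simp only [sum_apply, smul_apply, smul_eq_mul]
  refine Finset.sum_congr rfl fun σ _ => ?_
  rw [Finset.mul_sum]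
  refine Finset.sum_congr rfl fun l _ => ?_
  congr 1
  rw [← Finset.mul_prod_erase Finset.univ _ (Finset.mem_univ l), mul_comm]
  congr 1
  · simp
  · refine Finset.prod_congr rfl fun i hi => ?_
    rw [Matrix.updateRow_ne (Finset.ne_of_mem_erase hi)]

/-- The operator `∂/∂z_j` on determinants. -/
theorem cd_det {n m : ℕ} {x : Cn n} (R : Cn n → Matrix (Fin m) (Fin m) ℂ)
    (hR : ∀ i j, DifferentiableAt ℝ (fun y => R y i j) x) (j : Fin n) :
    cd j (fun y => (R y).det) x =
      ∑ l, ((R x).updateRow l (fun i => cd j (fun y => R y l i) x)).det := by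
  unfold cd
  rw [fderiv_det R hR, fderiv_det R hR, Finset.mul_sum, ← Finset.sum_sub_distrib]
  refine Finset.sum_congr rfl fun l _ => ?_
  have : (fun i => fderiv ℝ (fun y => R y l i) x (Pi.single j 1) -
      I * fderiv ℝ (fun y => R y l i) x (Pi.single j I)) =
      (fun i => fderiv ℝ (fun y => R y l i) x (Pi.single j 1)) +
        (-I) • (fun i => fderiv ℝ (fun y => R y l i) x (Pi.single j I)) := by
    funext i
    simp [sub_eq_add_neg]
  rw [this, Matrix.det_updateRow_add, Matrix.det_updateRow_smul]
  ring

theorem swap_rows {m : ℕ} (H : Matrix (Fin m) (Fin m) ℂ) (e w : Fin m → ℂ) {j l : Fin m}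
    (h : j ≠ l) : ((H.updateRow l e).updateRow j w).det = -((H.updateRow j e).updateRow l w).det := by
  have : (H.updateRow l e).updateRow j w =
      ((H.updateRow j e).updateRow l w).submatrix (Equiv.swap j l) id := by
    ext i k
    simp only [Matrix.submatrix_apply, id]
    by_cases h1 : i = j
    · subst h1
      simp
    · by_cases h2 : i = l
      · subst h2
        rw [Equiv.swap_apply_right, Matrix.updateRow_ne h1, Matrix.updateRow_self,
          Matrix.updateRow_ne h, Matrix.updateRow_self]
      · rw [Equiv.swap_apply_of_ne_of_ne h1 h2, Matrix.updateRow_ne h1, Matrix.updateRow_ne h2,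
          Matrix.updateRow_ne h2, Matrix.updateRow_ne h1]
  rw [this, Matrix.det_permute, Equiv.Perm.sign_swap h]
  simp

/-- The divergence of the cofactors. -/
theorem div_adj {n : ℕ} {x : Cn n} (H : Cn n → Matrix (Fin n) (Fin n) ℂ)
    (hH : ∀ i j, DifferentiableAt ℝ (fun y => H y i j) x)
    (hc : ∀ i j l, cd l (fun y => H y i j) x = cd i (fun y => H y l j) x) (k : Fin n) :
    ∑ j, cd j (fun y => (H y).adjugate k j) x = 0 := by
  set e : Fin n → ℂ := Pi.single k 1 with he
  set w : Fin n → Fin n → Fin n → ℂ := fun j l i => cd j (fun y => H y l i) x with hw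
  have hws : ∀ j l, w j l = w l j := by
    intro j l
    funext i
    exact hc l i j
  set G : Fin n → Fin n → ℂ := fun j l =>
    if l = j then 0 else (((H x).updateRow j e).updateRow l (w j l)).det with hG
  have h1 : ∀ j, cd j (fun y => (H y).adjugate k j) x = ∑ l, G j l := by
    intro j
    simp only [Matrix.adjugate_apply]
    rw [cd_det (fun y => (H y).updateRow j (Pi.single k 1))]
    · refine Finset.sum_congr rfl fun l _ => ?_
      by_cases hl : l = j
      · subst hl
        have : (fun i => cd l (fun y => (H y).updateRow l (Pi.single k 1) l i) x) = 0 := by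
          funext i
          simp [cd]
        rw [this, hG]
        simp only [if_true]
        apply Matrix.det_eq_zero_of_row_eq_zero l
        simp
      · rw [hG]
        simp only [if_neg hl]
        simp only [Matrix.updateRow_ne hl]
        rfl
    · intro i l
      by_cases hi : i = j
      · subst hi
        simp
      · simp only [Matrix.updateRow_ne hi]
        exact hH i l
  have h2 : ∀ j l, G j l = -G l j := by
    intro j l
    by_cases hl : l = j
    · subst hl
      simp [hG]
    · have hl' : j ≠ l := fun h => hl h.symm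
      simp only [hG, if_neg hl, if_neg hl']
      rw [swap_rows (H x) e _ hl', hws j l]
      simp
  have h3 : ∑ j, ∑ l, G j l = -∑ j, ∑ l, G j l := by
    calc ∑ j, ∑ l, G j l = ∑ j, ∑ l, -G l j :=
          Finset.sum_congr rfl fun j _ => Finset.sum_congr rfl fun l _ => h2 j l
      _ = -∑ j, ∑ l, G l j := by simp
      _ = -∑ j, ∑ l, G j l := by rw [Finset.sum_comm]
  simp only [h1]
  have : (2 : ℂ) * ∑ j, ∑ l, G j l = 0 := by linear_combination h3
  simpa using this

theorem adj_contDiffOn {n : ℕ} (M : Set (Cn n)) (H : Cn n → Matrix (Fin n) (Fin n) ℂ)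
    (hs : ∀ i j, ContDiffOn ℝ ∞ (fun x => H x i j) M) (k j : Fin n) :
    ContDiffOn ℝ ∞ (fun x => (H x).adjugate k j) M := by
  simp only [Matrix.adjugate_apply, Matrix.det_apply']
  refine ContDiffOn.sum fun σ _ => ?_
  refine contDiffOn_const.mul (contDiffOn_prod fun i _ => ?_)
  by_cases hi : σ i = j
  · rw [hi]
    simp only [Matrix.updateRow_self]
    exact contDiffOn_const
  · simp only [Matrix.updateRow_ne hi]
    exact hs _ _

theorem phdiv : S_PHDIV := by
  intro n M H hM hherm hs hc
  refine ⟨?_, ?_, ?_⟩
  · intro a b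
    have h1 := ((adj_contDiffOn M H hs b.1 a.1).mul
      (contDiffOn_const (c := (conj (if a.2 then I else 1) : ℂ)))).mul
      (contDiffOn_const (c := ((if b.2 then I else 1 : ℂ))))
    exact Complex.reCLM.contDiff.comp_contDiffOn h1
  · intro a b x hx
    have h1 : (H x).adjugate a.1 b.1 = conj ((H x).adjugate b.1 a.1) := by
      have := (hherm x hx).adjugate
      exact (this.apply a.1 b.1).symm
    unfold PH
    rw [h1, ← Complex.conj_re]
    congr 1
    simp only [map_mul, Complex.conj_conj]
    ring
  · intro b x hx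
    have hMx : M ∈ 𝓝 x := hM.mem_nhds hx
    have hadj : ∀ k j, DifferentiableAt ℝ (fun y => (H y).adjugate k j) x := fun k j =>
      ((adj_contDiffOn M H hs k j).contDiffAt hMx).differentiableAt (by simp)
    have hd : ∀ (a : Fin n × Bool) (v : Cn n), fderiv ℝ (PH H a b) x v =
        (fderiv ℝ (fun y => (H y).adjugate b.1 a.1) x v * conj (if a.2 then I else 1) *
          (if b.2 then I else 1)).re := by
      intro a v
      have h1 := ((hadj b.1 a.1).hasFDerivAt.mul_const (conj (if a.2 then I else 1) : ℂ)).mul_const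
        ((if b.2 then I else 1 : ℂ))
      have h2 := Complex.reCLM.hasFDerivAt.comp x h1
      have h3 : HasFDerivAt (PH H a b) _ x := h2
      rw [h3.fderiv]
      change ((if b.2 then I else 1 : ℂ) * ((conj (if a.2 then I else 1) : ℂ) *
        fderiv ℝ (fun y => (H y).adjugate b.1 a.1) x v)).re = _
      congr 1
      ring
    have hsum : ∑ a, dd (PH H a b) a x =
        ((∑ j, cd j (fun y => (H y).adjugate b.1 j) x) * (if b.2 then I else 1)).re := by
      rw [Fintype.sum_prod_type, Finset.sum_mul, Complex.re_sum]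
      refine Finset.sum_congr rfl fun j _ => ?_
      rw [Fintype.sum_bool]
      unfold dd
      rw [hd, hd, ← Complex.add_re]
      congr 1
      simp only [rb, cd]
      cases b.2 <;> simp <;> ring
    rw [hsum, div_adj H (fun i j => ((hs i j).contDiffAt hMx).differentiableAt (by simp))
      (hc x hx)]
    simp

end Pool.Agent.Helper10.Lin
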