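import Pool.Agent.Helper95.Lin.GoalsA
import Pool.Agent.Helper95.Lin.GoalsG

/-! # The Caratheodory volume does not vanish on open sets -/

open Complex Metric Set Filter Topology MeasureTheory
open scoped ContDiff ComplexConjugate ComplexOrder

namespace Pool.Agent.Helper10.Lin

open Pool.Agent.Helper95.Lin

theorem diff_det {n : ℕ} {ι : Type} [Fintype ι] [DecidableEq ι] {U : Set (Cn n)} (hU : IsOpen U)
    (A : Cn n → Matrix ι ι ℂ) (hA : ∀ i j, DifferentiableOn ℂ (fun z => A z i j) U) :
    DifferentiableOn ℂ (fun z => (A z).det) U := by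
  intro z hz
  apply DifferentiableAt.differentiableWithinAt
  simp only [Matrix.det_apply']
  refine DifferentiableAt.fun_sum fun σ _ => ?_
  refine (differentiableAt_const _).mul ?_
  exact (HasFDerivAt.finsetProd fun i _ =>
    ((hA (σ i) i).differentiableAt (hU.mem_nhds hz)).hasFDerivAt).differentiableAt

/-- Cramer's rule: solutions of holomorphic linear systems are holomorphic. -/
theorem cramer_holo {n : ℕ} {ι : Type} [Fintype ι] [DecidableEq ι] {U : Set (Cn n)}
    (hU : IsOpen U) (A : Cn n → Matrix ι ι ℂ) (hA : ∀ i j, DifferentiableOn ℂ (fun z => A z i j) U)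
    (w : Cn n → ι → ℂ) (hw : ∀ i, DifferentiableOn ℂ (fun z => w z i) U)
    (hdet : ∀ z ∈ U, (A z).det ≠ 0) (c : Cn n → ι → ℂ) (hc : ∀ z ∈ U, (A z).mulVec (c z) = w z)
    (i : ι) : DifferentiableOn ℂ (fun z => c z i) U := by
  have h1 : ∀ z ∈ U, c z i = ((A z).det)⁻¹ * ∑ k, (A z).adjugate i k * w z k := by
    intro z hz
    have h2 : (A z).adjugate.mulVec (w z) = (A z).det • c z := by
      rw [← hc z hz, Matrix.mulVec_mulVec, Matrix.adjugate_mul, Matrix.smul_mulVec,
        Matrix.one_mulVec]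
    have h3 := congrFun h2 i
    have h4 : ∑ k, (A z).adjugate i k * w z k = (A z).det * c z i := by
      simpa [Matrix.mulVec, dotProduct] using h3
    rw [h4, ← mul_assoc, inv_mul_cancel₀ (hdet z hz), one_mul]
  refine DifferentiableOn.congr ?_ h1
  refine DifferentiableOn.mul ((diff_det hU A hA).inv hdet) ?_
  refine DifferentiableOn.fun_sum fun k _ => ?_
  refine DifferentiableOn.mul ?_ (hw k)
  simp only [Matrix.adjugate_apply]
  refine diff_det hU _ fun p q => ?_
  by_cases hp : p = k
  · subst hp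
    simp only [Matrix.updateRow_self]
    exact differentiableOn_const _
  · simp only [Matrix.updateRow_ne hp]
    exact hA p q

/-- A dual family. -/
theorem exists_dual {b : ℕ} {ι : Type} [Fintype ι] [DecidableEq ι] (v : ι → Cn b)
    (hv : LinearIndependent ℂ v) : ∃ ψ : Cn b →L[ℂ] (ι → ℂ), ∀ i, ψ (v i) = Pi.single i 1 := by
  have hinj : LinearMap.ker (Fintype.linearCombination ℂ v) = ⊥ :=
    LinearMap.ker_eq_bot.2 (linearIndependent_iff_injective_fintypeLinearCombination.1 hv)
  obtain ⟨ψ, hψ⟩ := (Fintype.linearCombination ℂ v).exists_leftInverse_of_injective hinj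
  refine ⟨LinearMap.toContinuousLinearMap ψ, fun i => ?_⟩
  have h := LinearMap.congr_fun hψ (Pi.single i 1)
  simpa using h

/-- A real valued holomorphic function on a ball is constant. -/
theorem real_const {n : ℕ} {z₁ : Cn n} {r : ℝ} {c : Cn n → ℂ}
    (hc : DifferentiableOn ℂ c (ball z₁ r)) (him : ∀ z ∈ ball z₁ r, (c z).im = 0) :
    ∀ z ∈ ball z₁ r, c z = c z₁ := by
  intro z hz
  have hr : 0 < r := dist_nonneg.trans_lt (mem_ball.1 hz)
  refine isOpen_ball.is_const_of_fderiv_eq_zero (𝕜 := ℂ) (convex_ball z₁ r).isPreconnected hc ?_ hz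
    (mem_ball_self hr)
  intro y hy
  have hd := (hc.differentiableAt (isOpen_ball.mem_nhds hy)).hasFDerivAt
  have h1 : ∀ v, (fderiv ℂ c y v).im = 0 := by
    intro v
    have h2 : HasFDerivAt (fun y => (c y).im)
        (Complex.imCLM.comp ((fderiv ℂ c y).restrictScalars ℝ)) y :=
      Complex.imCLM.hasFDerivAt.comp y (hd.restrictScalars ℝ)
    have h3 : HasFDerivAt (fun y => (c y).im) (0 : Cn n →L[ℝ] ℝ) y := by
      refine (hasFDerivAt_const (0 : ℝ) y).congr_of_eventuallyEq ?_
      filter_upwards [isOpen_ball.mem_nhds hy] with w hw using him w hw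
    have h4 := congrArg (fun L : Cn n →L[ℝ] ℝ => L v) (h2.unique h3)
    simpa using h4
  ext v
  have h5 := h1 v
  have h6 := h1 (I • v)
  rw [map_smul] at h6
  simp only [smul_eq_mul, Complex.mul_im, Complex.I_re, Complex.I_im] at h6
  apply Complex.ext
  · simpa using h6
  · simpa using h5

/-- If the fields are independent at `z`, the volume is positive at `z`. -/
theorem carF_pos {b m : ℕ} (D : Set (Cn b)) (hD : Dom D) (V : Fin m → Cn b → Cn b) (z : Cn b)
    (hz : z ∈ D)
    (hb : BddAbove {r : ℝ | ∃ f : Fin m → Cn b → ℂ, Adm D f ∧ r = ‖(vm V f z).det‖})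
    (hi : LinearIndependent ℂ fun i => V i z) : 0 < carF D V z := by
  obtain ⟨ψ, hψ⟩ := exists_dual _ hi
  obtain ⟨R, hR⟩ := hD.bdd.exists_norm_le
  have hR0 : 0 ≤ R := (norm_nonneg z).trans (hR z hz)
  set C : ℝ := ‖ψ‖ * R + 1 with hC
  have hC0 : 0 < C := by positivity
  have hCC : (C : ℂ) ≠ 0 := by exact_mod_cast hC0.ne'
  set L : Fin m → (Cn b →L[ℂ] ℂ) := fun j =>
    (C : ℂ)⁻¹ • ((ContinuousLinearMap.proj j).comp ψ) with hL
  have hadm : Adm D (fun j w => L j w) := by
    intro j
    refine ⟨(L j).differentiable.differentiableOn, fun w hw => ?_⟩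
    have h1 : L j w = (C : ℂ)⁻¹ * ψ w j := by simp [hL]
    change ‖L j w‖ ≤ 1
    rw [h1, norm_mul, norm_inv, Complex.norm_real, Real.norm_of_nonneg hC0.le,
      inv_mul_le_iff₀ hC0, mul_one]
    calc ‖ψ w j‖ ≤ ‖ψ w‖ := norm_le_pi_norm _ _
      _ ≤ ‖ψ‖ * ‖w‖ := ψ.le_opNorm w
      _ ≤ ‖ψ‖ * R := mul_le_mul_of_nonneg_left (hR w hw) (norm_nonneg _)
      _ ≤ C := by rw [hC]; linarith
  have hmat : vm V (fun j w => L j w) z = (C : ℂ)⁻¹ • (1 : Matrix (Fin m) (Fin m) ℂ) := by
    ext i j
    have h1 : fderiv ℂ (fun w => L j w) z = L j := (L j).fderiv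
    simp only [vm, Matrix.of_apply, h1]
    simp [hL, hψ, Matrix.one_apply, Pi.single_apply, eq_comm]
  have hpos : 0 < ‖(vm V (fun j w => L j w) z).det‖ := by
    rw [hmat, Matrix.det_smul, Matrix.det_one, mul_one]
    exact norm_pos_iff.2 (pow_ne_zero _ (inv_ne_zero hCC))
  exact hpos.trans_le (le_csSup hb ⟨_, hadm, rfl⟩)

theorem card (hIDT : S_IDT) (hCARC : S_CARC) : S_CARD := by
  intro b m D hD V hV hV0 hVi hlam U hUD hU hUne
  by_contra hcon
  have hdep : ∀ z ∈ U, ¬ LinearIndependent ℂ fun i => V i z := fun z hz hi =>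
    hcon ⟨z, hz, carF_pos D hD V z (hUD hz) ((hCARC D hD.isOpen V hV).1 z (hUD hz)) hi⟩
  -- the maximal rank
  set S : Set ℕ := {r | ∃ z ∈ U, ∃ J : Finset (Fin m), J.card = r ∧
    LinearIndepOn ℂ (fun i => V i z) (J : Set (Fin m))} with hS
  have hSne : S.Nonempty := by
    obtain ⟨z, hz⟩ := hUne
    exact ⟨0, z, hz, ∅, rfl, by simp⟩
  have hSb : BddAbove S := by
    refine ⟨m, ?_⟩
    rintro r ⟨z, _, J, rfl, _⟩
    simpa using Finset.card_le_univ J
  obtain ⟨z₁, hz₁, J, hJc, hJi⟩ := Nat.sSup_mem hSne hSb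
  have hmax : ∀ z ∈ U, ∀ J' : Finset (Fin m),
      LinearIndepOn ℂ (fun i => V i z) (J' : Set (Fin m)) → J'.card ≤ J.card := by
    intro z hz J' hJ'
    rw [hJc]
    exact le_csSup hSb ⟨z, hz, J', rfl, hJ'⟩
  obtain ⟨i, hi⟩ : ∃ i, i ∉ J := by
    by_contra hall
    push Not at hall
    have hJu : J = Finset.univ := Finset.eq_univ_of_forall hall
    apply hdep z₁ hz₁
    rw [hJu, Finset.coe_univ, linearIndepOn_univ_iff] at hJi
    exact hJi
  -- the dual family
  obtain ⟨ψ, hψ⟩ := exists_dual (fun j : J => V j z₁) hJi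
  set A : Cn b → Matrix J J ℂ := fun z => Matrix.of fun k j => ψ (V j z) k with hA
  have hAd : ∀ k j, DifferentiableOn ℂ (fun z => A z k j) D := by
    intro k j
    have h1 : DifferentiableOn ℂ (fun z => ψ (V j z)) D :=
      ψ.differentiable.comp_differentiableOn (hV j)
    exact differentiableOn_pi.1 h1 k
  have hA1 : A z₁ = 1 := by
    ext k j
    simp [hA, hψ, Matrix.one_apply, Pi.single_apply]
  have hdetc : ContinuousAt (fun z => (A z).det) z₁ :=
    ((diff_det hD.isOpen A hAd).differentiableAt (hD.isOpen.mem_nhds (hUD hz₁))).continuousAt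
  have hev : ∀ᶠ z in 𝓝 z₁, (A z).det ≠ 0 := by
    refine hdetc.eventually_ne ?_
    rw [hA1]
    simp
  obtain ⟨r, hr, hball⟩ := Metric.mem_nhds_iff.1 (Filter.inter_mem hev (hU.mem_nhds hz₁))
  have hbU : ball z₁ r ⊆ U := fun z hz => (hball hz).2
  have hbdet : ∀ z ∈ ball z₁ r, (A z).det ≠ 0 := fun z hz => (hball hz).1
  -- independence near z₁
  have hind : ∀ z ∈ ball z₁ r, LinearIndependent ℂ fun j : J => V j z := by
    intro z hz
    rw [Fintype.linearIndependent_iff]
    intro c hc
    have h1 : (A z).mulVec c = 0 := by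
      have h2 := congrArg ψ hc
      simp only [map_sum, map_smul, map_zero] at h2
      ext k
      have h3 := congrFun h2 k
      simp only [Finset.sum_apply, Pi.smul_apply, smul_eq_mul, Pi.zero_apply] at h3
      simp only [Matrix.mulVec, dotProduct, hA, Matrix.of_apply, Pi.zero_apply]
      rw [← h3]
      exact Finset.sum_congr rfl fun j _ => mul_comm _ _
    exact fun j => congrFun (Matrix.eq_zero_of_mulVec_eq_zero (hbdet z hz) h1) j
  have hspan : ∀ z ∈ ball z₁ r, ∃ c : J → ℂ, ∑ j, c j • V j z = V i z := by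
    intro z hz
    have h1 : V i z ∈ Submodule.span ℂ ((fun i => V i z) '' (J : Set (Fin m))) := by
      by_contra hn
      have h2 : LinearIndepOn ℂ (fun i => V i z) (insert i (J : Set (Fin m))) :=
        (linearIndepOn_insert (by simpa using hi)).2 ⟨hind z hz, hn⟩
      rw [← Finset.coe_insert] at h2
      have h3 := hmax z (hbU hz) _ h2
      rw [Finset.card_insert_of_notMem hi] at h3
      omega
    exact (Submodule.mem_span_image_finset_iff_exists_fun ℂ).1 h1
  choose! c hc using hspan
  have hcd : ∀ j, DifferentiableOn ℂ (fun z => c z j) (ball z₁ r) := by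
    intro j
    refine cramer_holo isOpen_ball A (fun k j => (hAd k j).mono (hbU.trans hUD))
      (fun z => ψ (V i z)) ?_ hbdet c ?_ j
    · intro k
      have h1 : DifferentiableOn ℂ (fun z => ψ (V i z)) D :=
        ψ.differentiable.comp_differentiableOn (hV i)
      exact (differentiableOn_pi.1 h1 k).mono (hbU.trans hUD)
    · intro z hz
      rw [← hc z hz]
      ext k
      simp only [Matrix.mulVec, dotProduct, hA, Matrix.of_apply, map_sum, map_smul,
        Finset.sum_apply, Pi.smul_apply, smul_eq_mul]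
      exact Finset.sum_congr rfl fun j _ => mul_comm _ _
  have him : ∀ z ∈ ball z₁ r, ∀ j, (c z j).im = 0 := by
    intro z hz
    set lam : Fin m → ℂ := fun k => if k = i then 1 else if h : k ∈ J then -c z ⟨k, h⟩ else 0
      with hlamdef
    have hsum : ∀ {R : Type} [Semiring R] [Module R (Cn b)] (μ : Fin m → R) (ν : J → R),
        (∀ j : J, μ j = ν j) → (∀ k, k ≠ i → k ∉ J → μ k = 0) →
        ∑ k, μ k • V k z = μ i • V i z + ∑ j : J, ν j • V j z := by
      intro R _ _ μ ν h1 h2
      rw [← Finset.add_sum_erase Finset.univ _ (Finset.mem_univ i)]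
      congr 1
      rw [← Finset.sum_subset (s₁ := J)]
      · rw [← Finset.sum_coe_sort]
        exact Finset.sum_congr rfl fun j _ => by rw [h1]
      · intro k hk
        exact Finset.mem_erase.2 ⟨fun h => hi (h ▸ hk), Finset.mem_univ _⟩
      · intro k hk hkJ
        rw [h2 k (Finset.ne_of_mem_erase hk) hkJ, zero_smul]
    have hlJ : ∀ j : J, lam j = -c z j := by
      intro j
      have : (j : Fin m) ≠ i := fun h => hi (h ▸ j.2)
      simp [hlamdef, this]
    have hl0 : ∀ k, k ≠ i → k ∉ J → lam k = 0 := by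
      intro k h1 h2
      simp [hlamdef, h1, h2]
    have hli : lam i = 1 := by simp [hlamdef]
    have h1 : ∑ k, lam k • V k z = 0 := by
      rw [hsum lam (fun j => -c z j) hlJ hl0, hli, one_smul, ← hc z hz]
      simp
    have h2 := hlam z (hUD (hbU hz)) lam h1
    rw [hsum (fun k => (lam k).im) (fun j => -(c z j).im) (fun j => by simp [hlJ])
      (fun k h1 h2 => by simp [hl0 k h1 h2]), hli] at h2
    simp only [Complex.one_im, zero_smul, zero_add] at h2
    have h3 : ∑ j : J, ((-(c z j).im : ℝ) : ℂ) • V j z = 0 := by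
      rw [← h2]
      refine Finset.sum_congr rfl fun j _ => ?_
      exact Complex.coe_smul _ _
    have h4 := Fintype.linearIndependent_iff.1 (hind z hz) _ h3
    intro j
    have h5 := h4 j
    have h6 : -(c z j).im = 0 := by exact_mod_cast h5
    linarith
  have hconst : ∀ z ∈ ball z₁ r, ∀ j, c z j = c z₁ j := fun z hz j =>
    real_const (hcd j) (fun z hz => him z hz j) z hz
  -- the constant relation
  have hz₁b : z₁ ∈ ball z₁ r := mem_ball_self hr
  have hrel : ∀ z ∈ D, V i z - ∑ j : J, (c z₁ j) • V j z = 0 := by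
    refine hIDT D hD.isOpen hD.conn.isPreconnected
      (fun z => V i z - ∑ j : J, (c z₁ j) • V j z) ?_ z₁ (hUD hz₁) ?_
    · refine (hV i).sub (DifferentiableOn.fun_sum fun j _ => ?_)
      exact (hV j).const_smul (c z₁ j)
    · filter_upwards [ball_mem_nhds z₁ hr] with z hz
      rw [← hc z hz, sub_eq_zero]
      exact Finset.sum_congr rfl fun j _ => by rw [hconst z hz j]
  have hfin : ∑ k, (fun k => if k = i then (1 : ℝ) else if h : k ∈ J then -(c z₁ ⟨k, h⟩).re else 0) k
      • V k = 0 := by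
    funext z
    simp only [Finset.sum_apply, Pi.smul_apply, Pi.zero_apply]
    rw [← Finset.add_sum_erase Finset.univ _ (Finset.mem_univ i)]
    rw [← Finset.sum_subset (s₁ := J)]
    · rw [← Finset.sum_coe_sort]
      have h1 : ∀ j : J, (if (j : Fin m) = i then (1 : ℝ) else if h : (j : Fin m) ∈ J then
          -(c z₁ ⟨j, h⟩).re else 0) • V j z = -((c z₁ j) • V j z) := by
        intro j
        have : (j : Fin m) ≠ i := fun h => hi (h ▸ j.2)
        rw [if_neg this, dif_pos j.2, neg_smul]
        congr 1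
        have h2 : c z₁ j = ((c z₁ j).re : ℂ) := by
          apply Complex.ext
          · simp
          · simpa using him z₁ hz₁b j
        conv_rhs => rw [h2]
        exact (Complex.coe_smul _ _).symm
      rw [Finset.sum_congr rfl fun j _ => h1 j, Finset.sum_neg_distrib, if_pos rfl, one_smul]
      by_cases hz : z ∈ D
      · rw [← sub_eq_add_neg]
        exact hrel z hz
      · simp [hV0 _ z hz]
    · intro k hk
      exact Finset.mem_erase.2 ⟨fun h => hi (h ▸ hk), Finset.mem_univ _⟩
    · intro k hk hkJ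
      rw [if_neg (Finset.ne_of_mem_erase hk), dif_neg hkJ, zero_smul]
  have := Fintype.linearIndependent_iff.1 hVi _ hfin i
  simp at this

end Pool.Agent.Helper10.Lin
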